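import Mathlib
import Pool.Agent.Results.MP_4f47f1_al.Defs

set_option autoImplicit false

namespace H13.Fm

open Pool.Agent.Results.MP_4f47f1_al

section basic
variable (A B C : Formation)

theorem mem_of_surj {G K : Type} [Group G] [Finite G] [Group K] [Finite K] (f : G →* K)
    (hf : Function.Surjective f) (h : A.mem G) : A.mem K :=
  A.iso _ _ ⟨QuotientGroup.quotientKerEquivOfSurjective f hf⟩ (A.quot G f.ker h)

theorem ker_map_id {L : Type} [Group L] (N M : Subgroup L) [N.Normal] [M.Normal] (h : N ≤ M)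
    (x : L) : (QuotientGroup.mk x : L ⧸ N) ∈
      (QuotientGroup.map N M (MonoidHom.id L) h).ker ↔ x ∈ M := by
  rw [MonoidHom.mem_ker]
  exact QuotientGroup.eq_one_iff x

theorem mem_sub {G K₁ K₂ : Type} [Group G] [Finite G] [Group K₁] [Finite K₁] [Group K₂]
    [Finite K₂] (α : G →* K₁) (β : G →* K₂) (hα : Function.Surjective α)
    (hβ : Function.Surjective β) (h1 : A.mem K₁) (h2 : A.mem K₂) :
    A.mem (G ⧸ (α.ker ⊓ β.ker)) :=
  A.sub G α.ker β.ker
    (A.iso _ _ ⟨(QuotientGroup.quotientKerEquivOfSurjective α hα).symm⟩ h1)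
    (A.iso _ _ ⟨(QuotientGroup.quotientKerEquivOfSurjective β hβ).symm⟩ h2)

theorem mem_of_ker_le {G K : Type} [Group G] [Finite G] [Group K] [Finite K] (f : G →* K)
    (hf : Function.Surjective f) (N : Subgroup G) [N.Normal] (hN : N ≤ f.ker)
    (h : A.mem (G ⧸ N)) : A.mem K :=
  mem_of_surj A (QuotientGroup.lift N f hN)
    (fun k => by obtain ⟨g, rfl⟩ := hf k; exact ⟨QuotientGroup.mk g, rfl⟩) h

theorem mem_sub_bot {G K₁ K₂ : Type} [Group G] [Finite G] [Group K₁] [Finite K₁] [Group K₂]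
    [Finite K₂] (α : G →* K₁) (β : G →* K₂) (hα : Function.Surjective α)
    (hβ : Function.Surjective β) (h1 : A.mem K₁) (h2 : A.mem K₂) (hk : α.ker ⊓ β.ker = ⊥) :
    A.mem G := by
  refine mem_of_ker_le A (MonoidHom.id G) Function.surjective_id (α.ker ⊓ β.ker) ?_
    (mem_sub A α β hα hβ h1 h2)
  rw [hk]; exact bot_le

theorem mem_inf {G : Type} [Group G] [Finite G] : (A ⊓ B).mem G ↔ A.mem G ∧ B.mem G := by
  constructor
  · intro h
    exact ⟨(inf_le_left : A ⊓ B ≤ A) G h, (inf_le_right : A ⊓ B ≤ B) G h⟩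
  · rintro ⟨h1, h2⟩
    change ∀ C ∈ ({A, B} : Set Formation), C.mem G
    rintro C (rfl | rfl)
    · exact h1
    · exact h2

/-- empty formation -/
def emptyF : Formation where
  mem _ _ _ := False
  iso _ _ _ _ _ _ _ h := h
  quot _ _ _ _ _ h := h
  sub _ _ _ _ _ _ _ h _ := h

theorem not_mem_bot {G : Type} [Group G] [Finite G] : ¬ (⊥ : Formation).mem G :=
  fun h => (bot_le : (⊥ : Formation) ≤ emptyF) G h

theorem eq_bot_of_forall (h : ∀ (G : Type) [Group G] [Finite G], ¬ A.mem G) : A = ⊥ :=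
  le_antisymm (by intro G i1 i2 hG; exact absurd hG (h G)) bot_le

theorem exists_mem_of_ne_bot {A : Formation} (h : A ≠ ⊥) :
    ∃ (G : Type) (_ : Group G) (_ : Finite G), A.mem G := by
  by_contra hcon
  apply h
  apply eq_bot_of_forall
  intro G i1 i2 hG
  exact hcon ⟨G, i1, i2, hG⟩

theorem mem_trivial {A : Formation} (h : A ≠ ⊥) {G : Type} [Group G] [Finite G]
    [Subsingleton G] : A.mem G := by
  obtain ⟨X, _, _, hX⟩ := exists_mem_of_ne_bot h
  exact mem_of_surj A (1 : X →* G) (fun g => ⟨1, Subsingleton.elim _ _⟩) hX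

/-- description of the join -/
def J (A B : Formation) (G : Type) [Group G] [Finite G] : Prop :=
  ∃ (X U V : Type) (_ : Group X) (_ : Finite X) (_ : Group U) (_ : Finite U) (_ : Group V)
    (_ : Finite V) (f : X →* G) (φ : X →* U) (ψ : X →* V),
    Function.Surjective f ∧ Function.Surjective φ ∧ Function.Surjective ψ ∧
      A.mem U ∧ B.mem V ∧ φ.ker ⊓ ψ.ker = ⊥

variable {A B}

theorem J.surj {G K : Type} [Group G] [Finite G] [Group K] [Finite K] (g : G →* K)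
    (hg : Function.Surjective g) (h : J A B G) : J A B K := by
  obtain ⟨X, U, V, _, _, _, _, _, _, f, φ, ψ, h1, h2, h3, h4, h5, h6⟩ := h
  exact ⟨X, U, V, _, ‹_›, _, ‹_›, _, ‹_›, g.comp f, φ, ψ, hg.comp h1, h2, h3, h4, h5, h6⟩

theorem J.sub {L G₁ G₂ : Type} [Group L] [Finite L] [Group G₁] [Finite G₁] [Group G₂] [Finite G₂]
    (α : L →* G₁) (β : L →* G₂) (hα : Function.Surjective α) (hβ : Function.Surjective β)
    (hk : ∀ l, α l = 1 → β l = 1 → l = 1) (h1 : J A B G₁) (h2 : J A B G₂) : J A B L := by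
  obtain ⟨X₁, U₁, V₁, _, _, _, _, _, _, f₁, φ₁, ψ₁, a1, a2, a3, a4, a5, a6⟩ := h1
  obtain ⟨X₂, U₂, V₂, _, _, _, _, _, _, f₂, φ₂, ψ₂, b1, b2, b3, b4, b5, b6⟩ := h2
  let X : Subgroup (X₁ × X₂ × L) :=
    { carrier := {x | f₁ x.1 = α x.2.2 ∧ f₂ x.2.1 = β x.2.2}
      one_mem' := by simp
      mul_mem' := by
        rintro x y ⟨hx1, hx2⟩ ⟨hy1, hy2⟩
        exact ⟨by simp [hx1, hy1], by simp [hx2, hy2]⟩
      inv_mem' := by
        rintro x ⟨hx1, hx2⟩
        exact ⟨by simp [hx1], by simp [hx2]⟩ }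
  let p1 : X →* X₁ := (MonoidHom.fst _ _).comp X.subtype
  let p2 : X →* X₂ := ((MonoidHom.fst _ _).comp (MonoidHom.snd _ _)).comp X.subtype
  let p3 : X →* L := ((MonoidHom.snd _ _).comp (MonoidHom.snd _ _)).comp X.subtype
  have s1 : Function.Surjective p1 := by
    intro x
    obtain ⟨l, hl⟩ := hα (f₁ x)
    obtain ⟨y, hy⟩ := b1 (β l)
    exact ⟨⟨(x, y, l), hl.symm, hy⟩, rfl⟩
  have s2 : Function.Surjective p2 := by
    intro y
    obtain ⟨l, hl⟩ := hβ (f₂ y)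
    obtain ⟨x, hx⟩ := a1 (α l)
    exact ⟨⟨(x, y, l), hx, hl.symm⟩, rfl⟩
  have s3 : Function.Surjective p3 := by
    intro l
    obtain ⟨x, hx⟩ := a1 (α l)
    obtain ⟨y, hy⟩ := b1 (β l)
    exact ⟨⟨(x, y, l), hx, hy⟩, rfl⟩
  refine ⟨X, X ⧸ ((φ₁.comp p1).ker ⊓ (φ₂.comp p2).ker), X ⧸ ((ψ₁.comp p1).ker ⊓ (ψ₂.comp p2).ker),
    inferInstance, inferInstance, inferInstance, inferInstance, inferInstance, inferInstance,
    p3, QuotientGroup.mk' _, QuotientGroup.mk' _, s3, QuotientGroup.mk'_surjective _,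
    QuotientGroup.mk'_surjective _, mem_sub A _ _ (a2.comp s1) (b2.comp s2) a4 b4,
    mem_sub B _ _ (a3.comp s1) (b3.comp s2) a5 b5, ?_⟩
  rw [QuotientGroup.ker_mk', QuotientGroup.ker_mk', eq_bot_iff]
  rintro ⟨⟨x, y, l⟩, hx1, hx2⟩ ⟨⟨hh1, hh2⟩, ⟨hh3, hh4⟩⟩
  have c1 : x = 1 := by
    have : x ∈ φ₁.ker ⊓ ψ₁.ker := ⟨hh1, hh3⟩
    rwa [a6, Subgroup.mem_bot] at this
  have c2 : y = 1 := by
    have : y ∈ φ₂.ker ⊓ ψ₂.ker := ⟨hh2, hh4⟩
    rwa [b6, Subgroup.mem_bot] at this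
  have c3 : l = 1 := by
    apply hk
    · have : f₁ x = α l := hx1
      rw [← this, c1, map_one]
    · have : f₂ y = β l := hx2
      rw [← this, c2, map_one]
  subst c1 c2 c3
  exact Subgroup.mem_bot.2 rfl

variable (A B) in
/-- the join as a formation -/
def joinF : Formation where
  mem G _ _ := J A B G
  iso G H _ _ _ _ e h := by
    obtain ⟨e⟩ := e
    exact J.surj e.toMonoidHom e.surjective h
  quot G _ _ N _ h := J.surj (QuotientGroup.mk' N) (QuotientGroup.mk'_surjective N) h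
  sub G _ _ N₁ N₂ _ _ h1 h2 := by
    refine J.sub (QuotientGroup.map (N₁ ⊓ N₂) N₁ (MonoidHom.id G) inf_le_left)
      (QuotientGroup.map (N₁ ⊓ N₂) N₂ (MonoidHom.id G) inf_le_right) ?_ ?_ ?_ h1 h2
    · rintro ⟨g⟩; exact ⟨QuotientGroup.mk g, rfl⟩
    · rintro ⟨g⟩; exact ⟨QuotientGroup.mk g, rfl⟩
    · rintro ⟨g⟩ hg1 hg2
      have k1 : g ∈ N₁ := (QuotientGroup.eq_one_iff g).1 hg1
      have k2 : g ∈ N₂ := (QuotientGroup.eq_one_iff g).1 hg2
      exact (QuotientGroup.eq_one_iff g).2 ⟨k1, k2⟩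

theorem sup_mem_of_J {G : Type} [Group G] [Finite G] (h : J A B G) : (A ⊔ B).mem G := by
  obtain ⟨X, U, V, _, _, _, _, _, _, f, φ, ψ, h1, h2, h3, h4, h5, h6⟩ := h
  exact mem_of_surj (A ⊔ B) f h1 (mem_sub_bot (A ⊔ B) φ ψ h2 h3
    ((le_sup_left : A ≤ A ⊔ B) U h4) ((le_sup_right : B ≤ A ⊔ B) V h5) h6)

theorem J_of_sup (hA : A ≠ ⊥) (hB : B ≠ ⊥) {G : Type} [Group G] [Finite G]
    (h : (A ⊔ B).mem G) : J A B G := by
  have key : A ⊔ B ≤ joinF A B := by
    apply sup_le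
    · intro X _ _ hX
      refine ⟨X, X, PUnit, _, ‹_›, _, ‹_›, inferInstance, inferInstance, MonoidHom.id X,
        MonoidHom.id X, 1, Function.surjective_id, Function.surjective_id,
        fun g => ⟨1, Subsingleton.elim _ _⟩, hX, mem_trivial hB, ?_⟩
      rw [eq_bot_iff]
      rintro x ⟨hx, -⟩
      exact Subgroup.mem_bot.2 hx
    · intro X _ _ hX
      refine ⟨X, PUnit, X, _, ‹_›, inferInstance, inferInstance, _, ‹_›, MonoidHom.id X,
        1, MonoidHom.id X, Function.surjective_id,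
        fun g => ⟨1, Subsingleton.elim _ _⟩, Function.surjective_id, mem_trivial hA, hX, ?_⟩
      rw [eq_bot_iff]
      rintro x ⟨-, hx⟩
      exact Subgroup.mem_bot.2 hx
  exact key G h

/-- The lattice of formations is modular. -/
instance : IsModularLattice Formation := by
  constructor
  intro A B C hAC
  by_cases hA : A = ⊥
  · subst hA
    simp
  by_cases hB : B = ⊥
  · subst hB
    simp [hAC]
  intro G _ _ hG
  rw [mem_inf] at hG
  obtain ⟨hG1, hG2⟩ := hG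
  obtain ⟨X, U, V, _, _, _, _, _, _, f, φ, ψ, h1, h2, h3, h4, h5, h6⟩ := J_of_sup hA hB hG1
  -- `X / D` with `D = ker f ⊓ ker φ`
  have hD : C.mem (X ⧸ (f.ker ⊓ φ.ker)) := mem_sub C f φ h1 h2 hG2 (hAC U h4)
  let D : Subgroup X := f.ker ⊓ φ.ker
  let E : Subgroup X := ψ.ker ⊔ D
  have hDE : D ≤ E := le_sup_right
  have hV : (B ⊓ C).mem (X ⧸ E) := by
    rw [mem_inf]
    constructor
    · refine mem_of_surj B ((QuotientGroup.map ψ.ker E (MonoidHom.id X) le_sup_left).comp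
        (QuotientGroup.quotientKerEquivOfSurjective ψ h3).symm.toMonoidHom) ?_ h5
      refine Function.Surjective.comp (g := QuotientGroup.map ψ.ker E (MonoidHom.id X) le_sup_left) ?_
        (QuotientGroup.quotientKerEquivOfSurjective ψ h3).symm.surjective
      rintro ⟨g⟩; exact ⟨QuotientGroup.mk g, rfl⟩
    · refine mem_of_surj C (QuotientGroup.map D E (MonoidHom.id X) hDE) ?_ hD
      rintro ⟨g⟩; exact ⟨QuotientGroup.mk g, rfl⟩
  apply sup_mem_of_J
  refine ⟨X ⧸ D, U, X ⧸ E, inferInstance, inferInstance, _, ‹_›, inferInstance, inferInstance,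
    QuotientGroup.lift D f inf_le_left, QuotientGroup.lift D φ inf_le_right,
    QuotientGroup.map D E (MonoidHom.id X) hDE, ?_, ?_, ?_, h4, hV, ?_⟩
  · intro g
    obtain ⟨x, rfl⟩ := h1 g
    exact ⟨QuotientGroup.mk x, rfl⟩
  · intro g
    obtain ⟨x, rfl⟩ := h2 g
    exact ⟨QuotientGroup.mk x, rfl⟩
  · rintro ⟨g⟩; exact ⟨QuotientGroup.mk g, rfl⟩
  · rw [eq_bot_iff]
    rintro ⟨x⟩ ⟨hx1, hx2⟩
    have k1 : φ x = 1 := hx1
    have k2 : x ∈ E := (QuotientGroup.eq_one_iff x).1 hx2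
    have k2 := Subgroup.mem_sup_of_normal_right.1 k2
    obtain ⟨q, hq, d, hd, rfl⟩ := k2
    have k3 : φ d = 1 := hd.2
    have k4 : φ q = 1 := by rw [map_mul, k3, mul_one] at k1; exact k1
    have k5 : q ∈ φ.ker ⊓ ψ.ker := ⟨k4, hq⟩
    rw [h6, Subgroup.mem_bot] at k5
    rw [k5, one_mul]
    exact Subgroup.mem_bot.2 ((QuotientGroup.eq_one_iff d).2 hd)

end basic

end H13.Fm
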