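import Mathlib
import Pool.Agent.H13.Fm.Basic

set_option autoImplicit false

namespace H13.Fm

open Pool.Agent.Results.MP_4f47f1_al

/-- The Heisenberg group over `ZMod p`. -/
@[ext] structure Heis (p : ℕ) where
  a : ZMod p
  b : ZMod p
  c : ZMod p

namespace Heis
variable {p : ℕ}

instance : One (Heis p) := ⟨⟨0, 0, 0⟩⟩
instance : Mul (Heis p) := ⟨fun g h => ⟨g.a + h.a, g.b + h.b, g.c + h.c + g.b * h.a⟩⟩
instance : Inv (Heis p) := ⟨fun g => ⟨-g.a, -g.b, -g.c + g.b * g.a⟩⟩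

@[simp] theorem one_a : (1 : Heis p).a = 0 := rfl
@[simp] theorem one_b : (1 : Heis p).b = 0 := rfl
@[simp] theorem one_c : (1 : Heis p).c = 0 := rfl
@[simp] theorem mul_a (g h : Heis p) : (g * h).a = g.a + h.a := rfl
@[simp] theorem mul_b (g h : Heis p) : (g * h).b = g.b + h.b := rfl
@[simp] theorem mul_c (g h : Heis p) : (g * h).c = g.c + h.c + g.b * h.a := rfl
@[simp] theorem inv_a (g : Heis p) : (g⁻¹).a = -g.a := rfl
@[simp] theorem inv_b (g : Heis p) : (g⁻¹).b = -g.b := rfl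
@[simp] theorem inv_c (g : Heis p) : (g⁻¹).c = -g.c + g.b * g.a := rfl

instance : Group (Heis p) :=
  Group.ofLeftAxioms
    (fun _ _ _ => by ext <;> simp <;> ring)
    (fun _ => by ext <;> simp)
    (fun _ => by ext <;> simp)

instance [NeZero p] : Finite (Heis p) :=
  Finite.of_injective (fun g : Heis p => (g.a, g.b, g.c)) (by
    rintro ⟨a, b, c⟩ ⟨a', b', c'⟩ h
    simp only [Prod.mk.injEq] at h
    ext
    exacts [h.1, h.2.1, h.2.2])

theorem not_comm [Fact p.Prime] : ¬ ∀ g h : Heis p, g * h = h * g := by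
  intro h
  have := congrArg Heis.c (h ⟨0, 1, 0⟩ ⟨1, 0, 0⟩)
  simp at this

end Heis

theorem zpow_comm {G : Type} [Group G] {x y z : G} (hz : ∀ g, g * z = z * g)
    (h : y * x = x * y * z) (s t : ℤ) : y ^ t * x ^ s = x ^ s * y ^ t * z ^ (t * s) := by
  have hc : ∀ g, Commute g z := hz
  have h1 : x⁻¹ * y * x = y * z := by
    rw [mul_assoc, h]; group
  have h2 : x⁻¹ * y ^ t * x = y ^ t * z ^ t := by
    have := congrArg (· ^ t) h1
    simp only [(hc y).mul_zpow] at this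
    rw [← this]
    have h3 := conj_zpow (a := x⁻¹) (b := y) (i := t)
    rw [inv_inv] at h3
    exact h3.symm
  have h4 : (y ^ t)⁻¹ * x * y ^ t = x * (z ^ t)⁻¹ := by
    have h5 : y ^ t * x = x * y ^ t * z ^ t := by
      calc y ^ t * x = x * (x⁻¹ * y ^ t * x) := by group
        _ = x * y ^ t * z ^ t := by rw [h2]; group
    have h6 : x * y ^ t = y ^ t * x * (z ^ t)⁻¹ := by rw [h5]; group
    calc (y ^ t)⁻¹ * x * y ^ t = (y ^ t)⁻¹ * (x * y ^ t) := by group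
      _ = x * (z ^ t)⁻¹ := by rw [h6]; group
  have h7 : (y ^ t)⁻¹ * x ^ s * y ^ t = x ^ s * (z ^ (t * s))⁻¹ := by
    have h8 := congrArg (· ^ s) h4
    have hc2 : Commute x ((z ^ t)⁻¹) := ((hc x).zpow_right t).inv_right
    simp only [hc2.mul_zpow] at h8
    have h9 := conj_zpow (a := (y ^ t)⁻¹) (b := x) (i := s)
    rw [inv_inv] at h9
    rw [← h9, h8, inv_zpow, zpow_mul]
  calc y ^ t * x ^ s = y ^ t * (x ^ s * (z ^ (t * s))⁻¹) * z ^ (t * s) := by group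
    _ = y ^ t * ((y ^ t)⁻¹ * x ^ s * y ^ t) * z ^ (t * s) := by rw [h7]
    _ = x ^ s * y ^ t * z ^ (t * s) := by group

/-- logarithm to the base `z` -/
noncomputable def lg {G : Type} [Group G] (z : G) (p : ℕ) (g : G) : ZMod p :=
  open Classical in
  if h : ∃ k : ℤ, z ^ k = g then (h.choose : ZMod p) else 0

theorem lg_zpow {G : Type} [Group G] {z : G} {p : ℕ} (hz : orderOf z = p) (k : ℤ) :
    lg z p (z ^ k) = (k : ZMod p) := by
  have h : ∃ l : ℤ, z ^ l = z ^ k := ⟨k, rfl⟩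
  rw [lg, dif_pos h]
  have h2 := h.choose_spec
  rw [zpow_eq_zpow_iff_modEq, hz] at h2
  exact (ZMod.intCast_eq_intCast_iff _ _ _).2 h2

theorem lg_mul {G : Type} [Group G] {z : G} {p : ℕ} (hz : orderOf z = p) {m n : G}
    (hm : m ∈ Subgroup.zpowers z) (hn : n ∈ Subgroup.zpowers z) :
    lg z p (m * n) = lg z p m + lg z p n := by
  obtain ⟨k, rfl⟩ := hm
  obtain ⟨l, rfl⟩ := hn
  simp only
  rw [← zpow_add, lg_zpow hz, lg_zpow hz, lg_zpow hz, Int.cast_add]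

section build
variable {G : Type} [Group G]

/-- coordinates of an element of the subdirect power -/
def Dat (x y z : G) (h : G × G × G × G) (s t : ℤ) (n₁ n₂ n₃ : G) : Prop :=
  n₁ ∈ Subgroup.zpowers z ∧ n₂ ∈ Subgroup.zpowers z ∧ n₃ ∈ Subgroup.zpowers z ∧
    h.2.1 = h.1 * x ^ s * n₁ ∧ h.2.2.1 = h.1 * y ^ t * n₂ ∧ h.2.2.2 = h.1 * x ^ s * y ^ t * n₃

variable {x y z : G} {p : ℕ} (hz : orderOf z = p) (hzc : ∀ g, g * z = z * g)
  (hpow : ∀ g : G, g ^ p ∈ Subgroup.zpowers z)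
  (hcomm : ∀ g h : G, ∃ n ∈ Subgroup.zpowers z, g * h = h * g * n)
  (hyx : y * x = x * y * z)

include hzc in
theorem central {n : G} (hn : n ∈ Subgroup.zpowers z) (g : G) : n * g = g * n := by
  obtain ⟨k, rfl⟩ := hn
  have hc : Commute g z := hzc g
  exact (hc.zpow_right k).symm

include hzc hcomm hyx in
theorem Dat.mul {h h' : G × G × G × G} {s t s' t' : ℤ} {n₁ n₂ n₃ n₁' n₂' n₃' : G}
    (d : Dat x y z h s t n₁ n₂ n₃) (d' : Dat x y z h' s' t' n₁' n₂' n₃') :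
    ∃ κ₁ ∈ Subgroup.zpowers z, ∃ κ₂ ∈ Subgroup.zpowers z,
      Dat x y z (h * h') (s + s') (t + t') (n₁ * n₁' * κ₁) (n₂ * n₂' * κ₂)
        (n₃ * n₃' * κ₁ * κ₂ * z ^ (t * s')) := by
  obtain ⟨g0, g1, g2, g3⟩ := h
  obtain ⟨g0', g1', g2', g3'⟩ := h'
  obtain ⟨m1, m2, m3, e1, e2, e3⟩ := d
  obtain ⟨m1', m2', m3', e1', e2', e3'⟩ := d'
  simp only at e1 e2 e3 e1' e2' e3'
  obtain ⟨κ₁, k1, q1⟩ := hcomm (x ^ s) g0'
  obtain ⟨κ₂, k2, q2⟩ := hcomm (y ^ t) g0'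
  have hc := fun {n : G} (hn : n ∈ Subgroup.zpowers z) (g : G) => central hzc hn g
  refine ⟨κ₁, k1, κ₂, k2, mul_mem (mul_mem m1 m1') k1, mul_mem (mul_mem m2 m2') k2,
    mul_mem (mul_mem (mul_mem (mul_mem m3 m3') k1) k2) (zpow_mem (Subgroup.mem_zpowers z) _),
    ?_, ?_, ?_⟩
  · change g1 * g1' = g0 * g0' * x ^ (s + s') * (n₁ * n₁' * κ₁)
    rw [e1, e1']
    calc g0 * x ^ s * n₁ * (g0' * x ^ s' * n₁')
        = g0 * x ^ s * (n₁ * (g0' * x ^ s')) * n₁' := by group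
      _ = g0 * (x ^ s * g0') * x ^ s' * n₁ * n₁' := by rw [hc m1]; group
      _ = g0 * g0' * x ^ s * (κ₁ * (x ^ s' * n₁ * n₁')) := by rw [q1]; group
      _ = g0 * g0' * x ^ (s + s') * (n₁ * n₁' * κ₁) := by rw [hc k1, zpow_add]; group
  · change g2 * g2' = g0 * g0' * y ^ (t + t') * (n₂ * n₂' * κ₂)
    rw [e2, e2']
    calc g0 * y ^ t * n₂ * (g0' * y ^ t' * n₂')
        = g0 * y ^ t * (n₂ * (g0' * y ^ t')) * n₂' := by group
      _ = g0 * (y ^ t * g0') * y ^ t' * n₂ * n₂' := by rw [hc m2]; group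
      _ = g0 * g0' * y ^ t * (κ₂ * (y ^ t' * n₂ * n₂')) := by rw [q2]; group
      _ = g0 * g0' * y ^ (t + t') * (n₂ * n₂' * κ₂) := by rw [hc k2, zpow_add]; group
  · change g3 * g3' = g0 * g0' * x ^ (s + s') * y ^ (t + t') *
      (n₃ * n₃' * κ₁ * κ₂ * z ^ (t * s'))
    have hzz : z ^ (t * s') ∈ Subgroup.zpowers z := zpow_mem (Subgroup.mem_zpowers z) _
    rw [e3, e3']
    calc g0 * x ^ s * y ^ t * n₃ * (g0' * x ^ s' * y ^ t' * n₃')
        = g0 * x ^ s * y ^ t * (n₃ * (g0' * x ^ s' * y ^ t')) * n₃' := by group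
      _ = g0 * x ^ s * (y ^ t * g0') * x ^ s' * y ^ t' * n₃ * n₃' := by rw [hc m3]; group
      _ = g0 * x ^ s * g0' * y ^ t * (κ₂ * (x ^ s' * y ^ t' * n₃ * n₃')) := by rw [q2]; group
      _ = g0 * (x ^ s * g0') * y ^ t * (x ^ s' * y ^ t' * n₃ * n₃') * κ₂ := by
          rw [hc k2]; group
      _ = g0 * g0' * x ^ s * (κ₁ * (y ^ t * (x ^ s' * y ^ t' * n₃ * n₃') * κ₂)) := by
          rw [q1]; group
      _ = g0 * g0' * x ^ s * (y ^ t * x ^ s') * y ^ t' * n₃ * n₃' * κ₂ * κ₁ := by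
          rw [hc k1]; group
      _ = g0 * g0' * x ^ s * x ^ s' * y ^ t * (z ^ (t * s') * (y ^ t' * n₃ * n₃' * κ₂ * κ₁)) := by
          rw [zpow_comm hzc hyx]; group
      _ = g0 * g0' * x ^ (s + s') * y ^ (t + t') * (n₃ * n₃' * (κ₂ * κ₁) * z ^ (t * s')) := by
          rw [hc hzz, zpow_add, zpow_add]; group
      _ = g0 * g0' * x ^ (s + s') * y ^ (t + t') * (n₃ * n₃' * κ₁ * κ₂ * z ^ (t * s')) := by
          rw [hc k2 κ₁]; group

include hz hzc hpow hyx in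
theorem dvd_of_mem [Fact p.Prime] :
    (∀ k : ℤ, x ^ k ∈ Subgroup.zpowers z → (p : ℤ) ∣ k) ∧
      (∀ k : ℤ, y ^ k ∈ Subgroup.zpowers z → (p : ℤ) ∣ k) := by
  have hz1 : z ≠ 1 := by
    rintro rfl
    rw [orderOf_one] at hz
    exact (Fact.out : p.Prime).one_lt.ne hz
  have gen : ∀ w : G, w ∉ Subgroup.zpowers z → ∀ k : ℤ, w ^ k ∈ Subgroup.zpowers z →
      (p : ℤ) ∣ k := by
    intro w hw k hk
    by_contra hcon
    apply hw
    have hp : Prime (p : ℤ) := Nat.prime_iff_prime_int.1 Fact.out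
    have hcop : IsCoprime (p : ℤ) k := (hp.irreducible.coprime_iff_not_dvd).2 hcon
    obtain ⟨a, b, hab⟩ := hcop
    have h1 : w = (w ^ p) ^ a * (w ^ k) ^ b := by
      rw [← zpow_natCast, ← zpow_mul, ← zpow_mul, ← zpow_add, mul_comm (p : ℤ) a, mul_comm k b,
        hab, zpow_one]
    rw [h1]
    exact mul_mem (zpow_mem (hpow w) _) (zpow_mem hk _)
  constructor
  · apply gen
    intro hx
    apply hz1
    have := central hzc hx y
    rw [hyx] at this
    exact (left_eq_mul.1 this)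
  · apply gen
    intro hy
    apply hz1
    have := central hzc hy x
    rw [hyx] at this
    exact (mul_eq_left.1 this)

include hz hzc hpow hyx in
theorem Dat.unique [Fact p.Prime] {h : G × G × G × G} {s t s' t' : ℤ} {n₁ n₂ n₃ n₁' n₂' n₃' : G}
    (d : Dat x y z h s t n₁ n₂ n₃) (d' : Dat x y z h s' t' n₁' n₂' n₃') :
    (s : ZMod p) = s' ∧ (t : ZMod p) = t' ∧
      lg z p n₃ - lg z p n₁ - lg z p n₂ = lg z p n₃' - lg z p n₁' - lg z p n₂' := by
  obtain ⟨m1, m2, m3, e1, e2, e3⟩ := d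
  obtain ⟨m1', m2', m3', e1', e2', e3'⟩ := d'
  have hc := fun {n : G} (hn : n ∈ Subgroup.zpowers z) (g : G) => central hzc hn g
  obtain ⟨dx, dy⟩ := dvd_of_mem hz hzc hpow hyx
  have f1 : x ^ s * n₁ = x ^ s' * n₁' := by
    have := e1.symm.trans e1'
    rw [mul_assoc, mul_assoc] at this
    exact mul_left_cancel this
  have f2 : y ^ t * n₂ = y ^ t' * n₂' := by
    have := e2.symm.trans e2'
    rw [mul_assoc, mul_assoc] at this
    exact mul_left_cancel this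
  have f3 : x ^ s * y ^ t * n₃ = x ^ s' * y ^ t' * n₃' := by
    have := e3.symm.trans e3'
    apply mul_left_cancel (a := h.1)
    simpa only [mul_assoc] using this
  have g1 : x ^ (s - s') = n₁' * n₁⁻¹ := by
    rw [sub_eq_add_neg, add_comm, zpow_add, zpow_neg]
    calc (x ^ s')⁻¹ * x ^ s = (x ^ s')⁻¹ * (x ^ s * n₁) * n₁⁻¹ := by group
      _ = n₁' * n₁⁻¹ := by rw [f1]; group
  have g2 : y ^ (t - t') = n₂' * n₂⁻¹ := by
    rw [sub_eq_add_neg, add_comm, zpow_add, zpow_neg]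
    calc (y ^ t')⁻¹ * y ^ t = (y ^ t')⁻¹ * (y ^ t * n₂) * n₂⁻¹ := by group
      _ = n₂' * n₂⁻¹ := by rw [f2]; group
  have a1 : x ^ (s - s') ∈ Subgroup.zpowers z := by
    rw [g1]; exact mul_mem m1' (inv_mem m1)
  have a2 : y ^ (t - t') ∈ Subgroup.zpowers z := by
    rw [g2]; exact mul_mem m2' (inv_mem m2)
  have h1 : n₁' = x ^ (s - s') * n₁ := by rw [g1]; group
  have h2 : n₂' = y ^ (t - t') * n₂ := by rw [g2]; group
  have h3 : n₃' = x ^ (s - s') * (y ^ (t - t') * n₃) := by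
    calc n₃' = (y ^ t')⁻¹ * ((x ^ s')⁻¹ * (x ^ s' * y ^ t' * n₃')) := by group
      _ = (y ^ t')⁻¹ * (x ^ (s - s') * (y ^ t * n₃)) := by
          rw [← f3, sub_eq_add_neg, add_comm s, zpow_add, zpow_neg]; group
      _ = x ^ (s - s') * ((y ^ t')⁻¹ * (y ^ t * n₃)) := by
          rw [hc a1]
          rw [← mul_assoc, ← hc a1 ((y ^ t')⁻¹ * (y ^ t * n₃))]
      _ = x ^ (s - s') * (y ^ (t - t') * n₃) := by
          rw [sub_eq_add_neg t, add_comm t, zpow_add, zpow_neg]; group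
  refine ⟨?_, ?_, ?_⟩
  · have := dx _ a1
    rw [eq_comm, ZMod.intCast_eq_intCast_iff_dvd_sub]
    exact this
  · have := dy _ a2
    rw [eq_comm, ZMod.intCast_eq_intCast_iff_dvd_sub]
    exact this
  · rw [h1, h2, h3, lg_mul hz a1 m1, lg_mul hz a2 m2, lg_mul hz a1 (mul_mem a2 m3),
      lg_mul hz a2 m3]
    ring

variable [Finite G]

include hz hzc hpow hcomm hyx in
theorem heis_mem [Fact p.Prime] {A : Formation} (hG : A.mem G) : A.mem (Heis p) := by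
  have hc := fun {n : G} (hn : n ∈ Subgroup.zpowers z) (g : G) => central hzc hn g
  have one_dat : ∀ g : G, Dat x y z (g, g, g, g) 0 0 1 1 1 := fun g =>
    ⟨one_mem _, one_mem _, one_mem _, by simp, by simp, by simp⟩
  let S : Submonoid (G × G × G × G) :=
    { carrier := {h | ∃ s t n₁ n₂ n₃, Dat x y z h s t n₁ n₂ n₃}
      one_mem' := ⟨_, _, _, _, _, one_dat 1⟩
      mul_mem' := by
        rintro h h' ⟨s, t, n₁, n₂, n₃, d⟩ ⟨s', t', n₁', n₂', n₃', d'⟩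
        obtain ⟨κ₁, -, κ₂, -, d''⟩ := d.mul hzc hcomm hyx d'
        exact ⟨_, _, _, _, _, d''⟩ }
  let H : Subgroup (G × G × G × G) :=
    { S with
      inv_mem' := by
        intro h hh
        have h1 : h⁻¹ = h ^ (orderOf h - 1) := by
          rw [inv_eq_iff_mul_eq_one, ← pow_succ', Nat.sub_add_cancel (orderOf_pos h),
            pow_orderOf_eq_one]
        rw [h1]
        exact S.pow_mem hh _ }
  have hH : ∀ h : H, ∃ s t n₁ n₂ n₃, Dat x y z h.1 s t n₁ n₂ n₃ := fun h => h.2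
  choose s t n₁ n₂ n₃ hd using hH
  let f : H →* Heis p := MonoidHom.mk'
    (fun h => ⟨(s h : ZMod p), (t h : ZMod p), lg z p (n₃ h) - lg z p (n₁ h) - lg z p (n₂ h)⟩) (by
      intro h h'
      obtain ⟨κ₁, k1, κ₂, k2, d⟩ := (hd h).mul hzc hcomm hyx (hd h')
      obtain ⟨u1, u2, u3⟩ := (hd (h * h')).unique hz hzc hpow hyx d
      have hzz : z ^ (t h * s h') ∈ Subgroup.zpowers z := zpow_mem (Subgroup.mem_zpowers z) _
      ext
      · simp [u1]
      · simp [u2]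
      · simp only [Heis.mul_c]
        rw [u3, lg_mul hz (mul_mem (mul_mem (mul_mem (hd h).2.2.1 (hd h').2.2.1) k1) k2) hzz,
          lg_mul hz (mul_mem (mul_mem (hd h).2.2.1 (hd h').2.2.1) k1) k2,
          lg_mul hz (mul_mem (hd h).2.2.1 (hd h').2.2.1) k1,
          lg_mul hz (hd h).2.2.1 (hd h').2.2.1,
          lg_mul hz (mul_mem (hd h).1 (hd h').1) k1, lg_mul hz (hd h).1 (hd h').1,
          lg_mul hz (mul_mem (hd h).2.1 (hd h').2.1) k2, lg_mul hz (hd h).2.1 (hd h').2.1,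
          lg_zpow hz, Int.cast_mul]
        ring)
  have hf : Function.Surjective f := by
    rintro ⟨a, b, c⟩
    obtain ⟨s0, rfl⟩ := ZMod.intCast_surjective a
    obtain ⟨t0, rfl⟩ := ZMod.intCast_surjective b
    obtain ⟨c0, rfl⟩ := ZMod.intCast_surjective c
    have d : Dat x y z (1, x ^ s0, y ^ t0, x ^ s0 * y ^ t0 * z ^ c0) s0 t0 1 1 (z ^ c0) :=
      ⟨one_mem _, one_mem _, zpow_mem (Subgroup.mem_zpowers z) _, by simp, by simp, by simp⟩
    refine ⟨⟨_, ⟨_, _, _, _, _, d⟩⟩, ?_⟩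
    obtain ⟨u1, u2, u3⟩ := (hd ⟨_, ⟨_, _, _, _, _, d⟩⟩).unique hz hzc hpow hyx d
    have l1 : lg z p 1 = 0 := by
      have := lg_zpow hz 0
      simpa using this
    rw [lg_zpow hz, l1, sub_zero, sub_zero] at u3
    ext
    · exact u1
    · exact u2
    · exact u3
  refine mem_of_surj A f hf ?_
  let p0 : H →* G := (MonoidHom.fst _ _).comp H.subtype
  let p1 : H →* G := ((MonoidHom.fst _ _).comp (MonoidHom.snd _ _)).comp H.subtype
  let p2 : H →* G :=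
    (((MonoidHom.fst _ _).comp (MonoidHom.snd _ _)).comp (MonoidHom.snd _ _)).comp H.subtype
  let p3 : H →* G :=
    (((MonoidHom.snd _ _).comp (MonoidHom.snd _ _)).comp (MonoidHom.snd _ _)).comp H.subtype
  have sp : ∀ q : H →* G, (∀ g, q ⟨(g, g, g, g), ⟨_, _, _, _, _, one_dat g⟩⟩ = g) →
      Function.Surjective q := fun q hq g => ⟨_, hq g⟩
  have s0 := sp p0 (fun g => rfl)
  have s1 := sp p1 (fun g => rfl)
  have s2 := sp p2 (fun g => rfl)
  have s3 := sp p3 (fun g => rfl)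
  have q1 := mem_sub A p0 p1 s0 s1 hG hG
  have q2 := mem_sub A p2 p3 s2 s3 hG hG
  refine mem_sub_bot A (QuotientGroup.mk' (p0.ker ⊓ p1.ker)) (QuotientGroup.mk' (p2.ker ⊓ p3.ker))
    (QuotientGroup.mk'_surjective _) (QuotientGroup.mk'_surjective _) q1 q2 ?_
  rw [QuotientGroup.ker_mk', QuotientGroup.ker_mk', eq_bot_iff]
  rintro ⟨⟨a, b, c, d⟩, hh⟩ ⟨⟨h0, h1⟩, ⟨h2, h3⟩⟩
  have h0' : a = 1 := h0
  have h1' : b = 1 := h1
  have h2' : c = 1 := h2
  have h3' : d = 1 := h3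
  subst h0' h1' h2' h3'
  exact Subgroup.mem_bot.2 rfl

end build

end H13.Fm
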