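import Mathlib
import Pool.Agent.H13.Fm.Basic

set_option autoImplicit false

namespace H13.Fm

open Pool.Agent.Results.MP_4f47f1_al

theorem finite_semi {N G : Type} [Group N] [Group G] [Finite N] [Finite G] (φ : G →* MulAut N) :
    Finite (N ⋊[φ] G) := Finite.of_equiv (N × G) SemidirectProduct.equivProd.symm

theorem prime_lemma {A B : Formation} (hA : A ≠ ⊥) (hB : B ≠ ⊥) {G : Type} [Group G] [Finite G]
    (N : Subgroup G) (hN : N.Normal) (hmin : ∀ M : Subgroup G, M.Normal → M ≠ ⊥ → N ≤ M)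
    (hab : ∀ x ∈ N, ∀ y ∈ N, x * y = y * x)
    (hcent : ∀ g, (∀ n ∈ N, g * n = n * g) → g ∈ N)
    (ρ : G →* G) (hρN : ∀ n ∈ N, ρ n = 1) (hρ : ∀ g, g * (ρ g)⁻¹ ∈ N)
    (h : (A ⊔ B).mem G) : A.mem G ∨ B.mem G := by
  obtain ⟨X, U, V, _, _, _, _, _, _, f, φ, ψ, h1, h2, h3, h4, h5, h6⟩ := J_of_sup hA hB h
  by_cases hP : φ.ker ≤ f.ker
  · left
    exact mem_of_ker_le A f h1 φ.ker hP
      (A.iso _ _ ⟨(QuotientGroup.quotientKerEquivOfSurjective φ h2).symm⟩ h4)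
  by_cases hR : ψ.ker ≤ f.ker
  · right
    exact mem_of_ker_le B f h1 ψ.ker hR
      (B.iso _ _ ⟨(QuotientGroup.quotientKerEquivOfSurjective ψ h3).symm⟩ h5)
  left
  have key : ∀ Q : Subgroup X, Q.Normal → ¬ Q ≤ f.ker → N ≤ Q.map f := by
    intro Q hQ hne
    apply hmin
    · exact hQ.map f h1
    · intro hbot
      apply hne
      rwa [Subgroup.map_eq_bot_iff] at hbot
  have kP := key φ.ker inferInstance hP
  have kR := key ψ.ker inferInstance hR
  have comm : ∀ p ∈ φ.ker, ∀ r ∈ ψ.ker, p * r = r * p := by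
    intro p hp r hr
    have h7 : p * (r * p⁻¹ * r⁻¹) ∈ φ.ker ⊓ ψ.ker := by
      constructor
      · exact φ.ker.mul_mem hp ((MonoidHom.normal_ker φ).conj_mem p⁻¹ (φ.ker.inv_mem hp) r)
      · have : p * (r * p⁻¹ * r⁻¹) = (p * r * p⁻¹) * r⁻¹ := by group
        rw [this]
        exact ψ.ker.mul_mem ((MonoidHom.normal_ker ψ).conj_mem r hr p) (ψ.ker.inv_mem hr)
    rw [h6, Subgroup.mem_bot] at h7
    calc p * r = (p * (r * p⁻¹ * r⁻¹)) * (r * p) := by group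
      _ = r * p := by rw [h7, one_mul]
  have fR : ∀ r ∈ ψ.ker, f r ∈ N := by
    intro r hr
    apply hcent
    intro n hn
    obtain ⟨p, hp, rfl⟩ := kP hn
    rw [← map_mul, ← map_mul, comm p hp r hr]
  have fP : ∀ p ∈ φ.ker, f p ∈ N := by
    intro p hp
    apply hcent
    intro n hn
    obtain ⟨r, hr, rfl⟩ := kR hn
    rw [← map_mul, ← map_mul, comm p hp r hr]
  let W := ψ.ker ⋊[(MulAut.conjNormal : X →* MulAut ψ.ker)] X
  have : Finite W := finite_semi _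
  let φ1 : W →* U := φ.comp SemidirectProduct.rightHom
  let φ2 : W →* U := SemidirectProduct.lift (φ.comp ψ.ker.subtype) φ (by
    intro g
    ext r
    simp)
  let F : W →* G := SemidirectProduct.lift (f.comp ψ.ker.subtype) (ρ.comp f) (by
    intro g
    ext r
    simp only [MonoidHom.comp_apply, Subgroup.coe_subtype, MulEquiv.coe_toMonoidHom,
      MulAut.conjNormal_apply, MulAut.conj_apply, map_mul, map_inv]
    have e1 := hρ (f g)
    have e3 : f g = (f g * (ρ (f g))⁻¹) * ρ (f g) := by group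
    obtain ⟨n, hn⟩ : ∃ n, n = f g * (ρ (f g))⁻¹ := ⟨_, rfl⟩
    rw [← hn] at e1 e3
    have e5 : ρ (f g) * f r * (ρ (f g))⁻¹ ∈ N := hN.conj_mem _ (fR r.1 r.2) _
    have e2 := hab _ e1 _ e5
    calc f g * f r * (f g)⁻¹ = (n * ρ (f g)) * f r * (n * ρ (f g))⁻¹ := by rw [← e3]
      _ = n * (ρ (f g) * f r * (ρ (f g))⁻¹) * n⁻¹ := by group
      _ = ρ (f g) * f r * (ρ (f g))⁻¹ := by rw [e2, mul_inv_cancel_right])
  have hφ1 : Function.Surjective φ1 := by
    intro u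
    obtain ⟨x, rfl⟩ := h2 u
    exact ⟨SemidirectProduct.inr x, rfl⟩
  have hφ2 : Function.Surjective φ2 := by
    intro u
    obtain ⟨x, rfl⟩ := h2 u
    refine ⟨SemidirectProduct.inr x, ?_⟩
    change φ ((1 : ψ.ker) : X) * φ x = φ x
    rw [Subgroup.coe_one, map_one, one_mul]
  have hF : Function.Surjective F := by
    intro g
    obtain ⟨r, hr, hr2⟩ := kR (hρ g)
    obtain ⟨x, hx⟩ := h1 g
    refine ⟨⟨⟨r, hr⟩, x⟩, ?_⟩
    change f r * ρ (f x) = g
    rw [hr2, hx]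
    group
  refine mem_of_ker_le A F hF (φ1.ker ⊓ φ2.ker) ?_ (mem_sub A φ1 φ2 hφ1 hφ2 h4 h4)
  rintro w ⟨hw1, hw2⟩
  obtain ⟨⟨r, hr⟩, x⟩ := w
  have k1 : φ x = 1 := hw1
  have k2 : φ r * φ x = 1 := hw2
  rw [k1, mul_one] at k2
  have k3 : r ∈ φ.ker ⊓ ψ.ker := ⟨k2, hr⟩
  rw [h6, Subgroup.mem_bot] at k3
  have k4 : f r * ρ (f x) = 1 := by
    rw [k3, map_one, one_mul]
    exact hρN _ (fP x k1)
  exact k4

end H13.Fm
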