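import Mathlib
import Pool.Agent.H13.Fm.Prime
import Pool.Agent.H13.Fm.Heis

set_option autoImplicit false

namespace H13.Fm

open Pool.Agent.Results.MP_4f47f1_al
open scoped commutatorElement

theorem exists_min {d x : Formation} (hlt : d < x) :
    ∃ (G : Type) (_ : Group G) (_ : Finite G), x.mem G ∧ ¬ d.mem G ∧
      ∀ (N : Subgroup G) [N.Normal], N ≠ ⊥ → d.mem (G ⧸ N) := by
  classical
  have hex : ∃ n : ℕ, ∃ (G : Type) (_ : Group G) (_ : Finite G),
      Nat.card G = n ∧ x.mem G ∧ ¬ d.mem G := by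
    by_contra hcon
    apply hlt.not_ge
    intro G i1 i2 hG
    by_contra h
    exact hcon ⟨_, G, i1, i2, rfl, hG, h⟩
  obtain ⟨G, i1, i2, hc, hx, hd⟩ := Nat.find_spec hex
  refine ⟨G, i1, i2, hx, hd, ?_⟩
  intro N hN hne
  by_contra hcon
  have hlt : Nat.card (G ⧸ N) < Nat.find hex := by
    rw [← hc, Subgroup.card_eq_card_quotient_mul_card_subgroup N]
    have h1 : 1 < Nat.card N := N.one_lt_card_iff_ne_bot.2 hne
    have h2 : 0 < Nat.card (G ⧸ N) := Nat.card_pos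
    exact lt_mul_of_one_lt_right h2 h1
  exact Nat.find_min hex hlt ⟨G ⧸ N, inferInstance, inferInstance, rfl, x.quot G N hx, hcon⟩

theorem exists_N {d : Formation} (hd0 : d ≠ ⊥) {G : Type} [Group G] [Finite G] (hd : ¬ d.mem G)
    (hq : ∀ (N : Subgroup G) [N.Normal], N ≠ ⊥ → d.mem (G ⧸ N)) :
    ∃ N : Subgroup G, N.Normal ∧ N ≠ ⊥ ∧ ∀ M : Subgroup G, M.Normal → M ≠ ⊥ → N ≤ M := by
  classical
  have hnt : Nontrivial G := by
    by_contra h
    rw [not_nontrivial_iff_subsingleton] at h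
    exact hd (mem_trivial hd0)
  have inter : ∀ M₁ M₂ : Subgroup G, M₁.Normal → M₂.Normal → M₁ ≠ ⊥ → M₂ ≠ ⊥ → M₁ ⊓ M₂ ≠ ⊥ := by
    intro M₁ M₂ i1 i2 h1 h2 h3
    apply hd
    refine mem_of_ker_le d (MonoidHom.id G) Function.surjective_id (M₁ ⊓ M₂) ?_
      (d.sub G M₁ M₂ (hq M₁ h1) (hq M₂ h2))
    rw [h3]; exact bot_le
  have hex : ∃ n : ℕ, ∃ N : Subgroup G, N.Normal ∧ N ≠ ⊥ ∧ Nat.card N = n :=
    ⟨_, ⊤, inferInstance, top_ne_bot, rfl⟩
  obtain ⟨N, hN, hne, hcard⟩ := Nat.find_spec hex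
  refine ⟨N, hN, hne, ?_⟩
  intro M hM hMne
  have h1 := inter M N hM hN hMne hne
  have h2 : Nat.card N ≤ Nat.card (M ⊓ N : Subgroup G) := by
    rw [hcard]
    by_contra hcon
    rw [not_le] at hcon
    exact Nat.find_min hex hcon ⟨M ⊓ N, inferInstance, h1, rfl⟩
  have h3 : M ⊓ N = N := Subgroup.eq_of_le_of_card_ge inf_le_right h2
  rw [← h3]
  exact inf_le_left

section group
variable {G : Type} [Group G] [Finite G] {N : Subgroup G} (hN : N.Normal) (hne : N ≠ ⊥)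
  (hmin : ∀ M : Subgroup G, M.Normal → M ≠ ⊥ → N ≤ M)

include hN hne hmin in
theorem N_comm (hs : Group.IsSolvable G) : ∀ x ∈ N, ∀ y ∈ N, x * y = y * x := by
  have h1 : ⁅N, N⁆ = ⊥ := by
    by_contra h
    exact (Group.IsSolvable.commutator_lt_of_ne_bot hne).not_ge (hmin _ inferInstance h)
  intro x hx y hy
  have h2 : ⁅x, y⁆ ∈ ⁅N, N⁆ := Subgroup.commutator_mem_commutator hx hy
  rw [h1, Subgroup.mem_bot, commutatorElement_eq_one_iff_mul_comm] at h2
  exact h2

include hN hne hmin in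
theorem N_pow (hab : ∀ x ∈ N, ∀ y ∈ N, x * y = y * x) :
    ∃ q : ℕ, q.Prime ∧ ∀ n ∈ N, n ^ q = 1 := by
  obtain ⟨q, hq, hdvd⟩ := Nat.exists_prime_and_dvd (N.one_lt_card_iff_ne_bot.2 hne).ne'
  have : Fact q.Prime := ⟨hq⟩
  refine ⟨q, hq, ?_⟩
  obtain ⟨g, hg⟩ := exists_prime_orderOf_dvd_card' q hdvd
  let T : Subgroup G :=
    { carrier := {x | x ∈ N ∧ x ^ q = 1}
      one_mem' := ⟨one_mem _, one_pow _⟩
      mul_mem' := by
        rintro x y ⟨hx1, hx2⟩ ⟨hy1, hy2⟩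
        refine ⟨mul_mem hx1 hy1, ?_⟩
        have hc : Commute x y := hab x hx1 y hy1
        rw [hc.mul_pow, hx2, hy2, one_mul]
      inv_mem' := by
        rintro x ⟨hx1, hx2⟩
        exact ⟨inv_mem hx1, by rw [inv_pow, hx2, inv_one]⟩ }
  have hT : T.Normal := by
    constructor
    rintro x ⟨hx1, hx2⟩ g
    refine ⟨hN.conj_mem x hx1 g, ?_⟩
    rw [conj_pow, hx2, mul_one, mul_inv_cancel]
  have hTne : T ≠ ⊥ := by
    intro h
    have h1 : (g : G) ∈ T := by
      refine ⟨g.2, ?_⟩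
      have := pow_orderOf_eq_one g
      rw [hg] at this
      exact_mod_cast congrArg Subtype.val this
    rw [h, Subgroup.mem_bot] at h1
    have h2 : g = 1 := Subtype.ext h1
    rw [h2, orderOf_one] at hg
    exact hq.one_lt.ne hg
  intro n hn
  exact (hmin T hT hTne hn).2

include hN hne hmin in
theorem coprime_case (hab : ∀ x ∈ N, ∀ y ∈ N, x * y = y * x) {p q : ℕ} (hp : p.Prime)
    (hq : q.Prime) (hqp : q ≠ p) (hNq : ∀ n ∈ N, n ^ q = 1) (hpN : ∀ g : G, g ^ p ∈ N)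
    (hcN : ∀ g h : G, g * h * g⁻¹ * h⁻¹ ∈ N) :
    ∃ ρ : G →* G, (∀ n ∈ N, ρ n = 1) ∧ (∀ g, g * (ρ g)⁻¹ ∈ N) ∧
      ∀ g, (∀ n ∈ N, g * n = n * g) → g ∈ N := by
  have : Fact p.Prime := ⟨hp⟩
  have : Fact q.Prime := ⟨hq⟩
  have h1 : IsPGroup q N := by
    intro n
    refine ⟨1, ?_⟩
    rw [pow_one]
    exact Subtype.ext (hNq n.1 n.2)
  have h2 : IsPGroup p (G ⧸ N) := by
    rintro ⟨g⟩
    refine ⟨1, ?_⟩
    rw [pow_one]
    exact (QuotientGroup.eq_one_iff (g ^ p)).2 (hpN g)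
  obtain ⟨a, ha⟩ := IsPGroup.iff_card.1 h1
  obtain ⟨b, hb⟩ := IsPGroup.iff_card.1 h2
  have hcop : Nat.Coprime (Nat.card N) N.index := by
    rw [Subgroup.index_eq_card, ha, hb]
    exact Nat.Coprime.pow _ _ ((Nat.coprime_primes hq hp).2 hqp)
  obtain ⟨H, hH⟩ := Subgroup.exists_right_complement'_of_coprime hcop
  let E : G ⧸ N ≃* H := hH.symm.QuotientMulEquiv
  let ρ : G →* G := (H.subtype.comp E.toMonoidHom).comp (QuotientGroup.mk' N)
  have hρmk : ∀ g : G, (QuotientGroup.mk (ρ g) : G ⧸ N) = QuotientGroup.mk g := by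
    intro g
    have h3 : E.symm (E (QuotientGroup.mk g)) = QuotientGroup.mk g := E.symm_apply_apply _
    exact h3
  have hρ1 : ∀ n ∈ N, ρ n = 1 := by
    intro n hn
    have h4 : (QuotientGroup.mk n : G ⧸ N) = 1 := (QuotientGroup.eq_one_iff n).2 hn
    change ((E (QuotientGroup.mk n) : H) : G) = 1
    rw [h4, map_one]
    rfl
  have hρ2 : ∀ g, g * (ρ g)⁻¹ ∈ N := by
    intro g
    rw [← QuotientGroup.eq_one_iff, QuotientGroup.mk_mul, QuotientGroup.mk_inv, hρmk,
      mul_inv_cancel]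
  refine ⟨ρ, hρ1, hρ2, ?_⟩
  -- elements of the centraliser
  have hk : ∀ g, (∀ n ∈ N, g * n = n * g) → ∀ n ∈ N, ρ g * n = n * ρ g := by
    intro g hg n hn
    have h5 := hρ2 g
    obtain ⟨m, hm⟩ : ∃ m, m = g * (ρ g)⁻¹ := ⟨_, rfl⟩
    rw [← hm] at h5
    have h6 : ρ g = m⁻¹ * g := by rw [hm]; group
    rw [h6, mul_assoc, hg n hn, ← mul_assoc, hab m⁻¹ (inv_mem h5) n hn, mul_assoc]
  have hρc : ∀ g h, ρ g * ρ h = ρ h * ρ g := by
    intro g h
    have h7 := hρ1 _ (hcN g h)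
    rw [map_mul, map_mul, map_mul, map_inv, map_inv, mul_inv_eq_one, mul_inv_eq_iff_eq_mul] at h7
    exact h7
  have hdec : ∀ g, g = (g * (ρ g)⁻¹) * ρ g := fun g => by group
  have hcomm : ∀ x y : G, (∀ n ∈ N, x * n = n * x) → (∀ n ∈ N, y * n = n * y) →
      x * y = y * x := by
    intro x y hx hy
    obtain ⟨m, hm⟩ : ∃ m, m = y * (ρ y)⁻¹ := ⟨_, rfl⟩
    have hmN : m ∈ N := by rw [hm]; exact hρ2 y
    obtain ⟨l, hl⟩ : ∃ l, l = x * (ρ x)⁻¹ := ⟨_, rfl⟩
    have hlN : l ∈ N := by rw [hl]; exact hρ2 x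
    have e1 : y = m * ρ y := by rw [hm]; group
    have e2 : x = l * ρ x := by rw [hl]; group
    have c1 := hk x hx m hmN
    have c2 := hk y hy l hlN
    have c3 := hρc x y
    have c4 := hab l hlN m hmN
    calc x * y = (l * ρ x) * (m * ρ y) := by rw [← e1, ← e2]
      _ = l * (ρ x * m) * ρ y := by group
      _ = (l * m) * (ρ x * ρ y) := by rw [c1]; group
      _ = m * (l * ρ y) * ρ x := by rw [c4, c3]; group
      _ = (m * ρ y) * (l * ρ x) := by rw [← c2]; group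
      _ = y * x := by rw [← e1, ← e2]
  intro c hc
  let S : Subgroup G :=
    { carrier := {x | (∀ n ∈ N, x * n = n * x) ∧ x ^ p = 1}
      one_mem' := ⟨fun n _ => by simp, one_pow _⟩
      mul_mem' := by
        rintro x y ⟨hx1, hx2⟩ ⟨hy1, hy2⟩
        refine ⟨fun n hn => ?_, ?_⟩
        · rw [mul_assoc, hy1 n hn, ← mul_assoc, hx1 n hn, mul_assoc]
        · have hcc : Commute x y := hcomm x y hx1 hy1
          rw [hcc.mul_pow, hx2, hy2, one_mul]
      inv_mem' := by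
        rintro x ⟨hx1, hx2⟩
        refine ⟨fun n hn => ?_, by rw [inv_pow, hx2, inv_one]⟩
        have hcc : Commute x n := hx1 n hn
        exact hcc.inv_left }
  have hS : S.Normal := by
    constructor
    rintro x ⟨hx1, hx2⟩ g
    refine ⟨fun n hn => ?_, ?_⟩
    · have h8 := hx1 (g⁻¹ * n * g) (by
        have := hN.conj_mem n hn g⁻¹
        rwa [inv_inv] at this)
      calc g * x * g⁻¹ * n = g * (x * (g⁻¹ * n * g)) * g⁻¹ := by group
        _ = n * (g * x * g⁻¹) := by rw [h8]; group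
    · rw [conj_pow, hx2, mul_one, mul_inv_cancel]
  have hSbot : S = ⊥ := by
    by_contra hSne
    apply hne
    rw [eq_bot_iff]
    intro n hn
    have h9 := (hmin S hS hSne hn).2
    have h10 := hNq n hn
    rw [Subgroup.mem_bot]
    have h11 : orderOf n ∣ Nat.gcd p q :=
      Nat.dvd_gcd (orderOf_dvd_of_pow_eq_one h9) (orderOf_dvd_of_pow_eq_one h10)
    rw [(Nat.coprime_primes hp hq).2 (Ne.symm hqp), Nat.dvd_one, orderOf_eq_one_iff] at h11
    exact h11
  have h12 : ρ c ∈ S := by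
    refine ⟨hk c hc, ?_⟩
    rw [← map_pow]
    exact hρ1 _ (hpN c)
  rw [hSbot, Subgroup.mem_bot] at h12
  have h13 := hρ2 c
  rwa [h12, inv_one, mul_one] at h13

include hN hne hmin in
theorem p_case (hab : ∀ x ∈ N, ∀ y ∈ N, x * y = y * x) {p : ℕ} [hpf : Fact p.Prime]
    (hNp : ∀ n ∈ N, n ^ p = 1) (hpN : ∀ g : G, g ^ p ∈ N)
    (hcN : ∀ g h : G, g * h * g⁻¹ * h⁻¹ ∈ N) {d x : Formation} (hx : x.mem G) (hd : ¬ d.mem G)
    (hCp : ∀ (K : Type) [Group K] [Finite K], Nat.card K = p → d.mem K) :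
    x.mem (Multiplicative (ZMod (p ^ 2))) ∨ x.mem (Heis p) := by
  have hp : p.Prime := hpf.out
  have hnt : Nontrivial G := by
    obtain ⟨n, -, hn1⟩ := (Subgroup.ne_bot_iff_exists_ne_one.1 hne)|>.elim fun n hn =>
      (⟨n.1, n.2, fun h => hn (Subtype.ext h)⟩ : ∃ n : G, n ∈ N ∧ n ≠ 1)
    exact ⟨n, 1, hn1⟩
  have hG : IsPGroup p G := by
    intro g
    refine ⟨2, ?_⟩
    rw [pow_two, pow_mul]
    exact hNp _ (hpN g)
  have hNc : N ≤ Subgroup.center G := by
    apply hmin _ inferInstance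
    intro h
    have := hG.center_nontrivial
    rw [h] at this
    exact not_subsingleton _ (inferInstance : Subsingleton (⊥ : Subgroup G))
  have hNz : ∀ z ∈ N, z ≠ 1 → N = Subgroup.zpowers z ∧ orderOf z = p := by
    intro z hz hz1
    have h1 : (Subgroup.zpowers z).Normal := by
      constructor
      rintro _ ⟨k, rfl⟩ g
      refine ⟨k, ?_⟩
      simp only
      have h2 : g * z ^ k = z ^ k * g :=
        (Subgroup.mem_center_iff.1 (Subgroup.zpow_mem _ (hNc hz) k)) g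
      rw [h2, mul_inv_cancel_right]
    refine ⟨le_antisymm (hmin _ h1 (by rwa [Ne, Subgroup.zpowers_eq_bot])) ?_, ?_⟩
    · rw [Subgroup.zpowers_le]; exact hz
    · exact orderOf_eq_prime (hNp z hz) hz1
  by_cases hcomm : ∀ g h : G, g * h = h * g
  · left
    -- elements of order `p` lie in `N`
    have hord : ∀ g : G, g ^ p = 1 → g ∈ N := by
      intro g hg
      by_cases hg1 : g = 1
      · rw [hg1]; exact one_mem _
      · have h1 : (Subgroup.zpowers g).Normal := by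
          constructor
          rintro _ ⟨k, rfl⟩ h
          refine ⟨k, ?_⟩
          simp only
          rw [hcomm h, mul_inv_cancel_right]
        have h2 := hmin _ h1 (by rwa [Ne, Subgroup.zpowers_eq_bot])
        obtain ⟨n, hn, hn1⟩ : ∃ n : G, n ∈ N ∧ n ≠ 1 :=
          (Subgroup.ne_bot_iff_exists_ne_one.1 hne).elim fun n hn =>
            ⟨n.1, n.2, fun h => hn (Subtype.ext h)⟩
        have h3 := hNz n hn hn1
        have h4 : N = Subgroup.zpowers g := by
          apply Subgroup.eq_of_le_of_card_ge h2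
          rw [Nat.card_zpowers, orderOf_eq_prime hg hg1, h3.1, Nat.card_zpowers, h3.2]
        rw [h4]
        exact Subgroup.mem_zpowers g
    obtain ⟨g, hg⟩ : ∃ g : G, g ^ p ≠ 1 := by
      by_contra hcon
      push Not at hcon
      apply hd
      apply hCp
      have htop : N = ⊤ := by
        rw [eq_top_iff]
        intro g _
        exact hord g (hcon g)
      obtain ⟨n, hn, hn1⟩ : ∃ n : G, n ∈ N ∧ n ≠ 1 :=
        (Subgroup.ne_bot_iff_exists_ne_one.1 hne).elim fun n hn =>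
          ⟨n.1, n.2, fun h => hn (Subtype.ext h)⟩
      have h3 := hNz n hn hn1
      rw [← Subgroup.card_top, ← htop, h3.1, Nat.card_zpowers, h3.2]
    have hgN := (hNz (g ^ p) (hpN g) hg).1
    have htop : ∀ h : G, h ∈ Subgroup.zpowers g := by
      intro h
      have h1 : h ^ p ∈ Subgroup.zpowers (g ^ p) := by rw [← hgN]; exact hpN h
      obtain ⟨k, hk⟩ := h1
      simp only at hk
      have h2 : (h * (g ^ k)⁻¹) ^ p = 1 := by
        have hc : Commute h (g ^ k)⁻¹ := hcomm _ _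
        rw [hc.mul_pow, ← hk, inv_pow, ← zpow_natCast (g ^ k) p, ← zpow_mul, mul_comm k,
          zpow_mul, zpow_natCast, mul_inv_cancel]
      have h3 := hord _ h2
      rw [hgN] at h3
      have h4 : Subgroup.zpowers (g ^ p) ≤ Subgroup.zpowers g := by
        rw [Subgroup.zpowers_le]
        exact pow_mem (Subgroup.mem_zpowers g) p
      have h5 : h = (h * (g ^ k)⁻¹) * g ^ k := by group
      rw [h5]
      exact mul_mem (h4 h3) (zpow_mem (Subgroup.mem_zpowers g) k)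
    have hgo : orderOf g = p ^ 2 := by
      apply orderOf_eq_prime_pow
      · rwa [pow_one]
      · rw [pow_succ, pow_one, pow_mul]
        exact hNp _ (hpN g)
    have hcyc : IsCyclic G := ⟨g, htop⟩
    have hcard : Nat.card G = p ^ 2 := by
      rw [← hgo]
      exact (orderOf_eq_card_of_forall_mem_zpowers htop).symm
    have : NeZero (p ^ 2) := ⟨pow_ne_zero _ hp.ne_zero⟩
    refine x.iso _ _ ⟨mulEquivOfCyclicCardEq ?_⟩ hx
    rw [hcard]
    simp
  · right
    push Not at hcomm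
    obtain ⟨y, a, hya⟩ := hcomm
    obtain ⟨z, hz⟩ : ∃ z, z = (a * y)⁻¹ * (y * a) := ⟨_, rfl⟩
    have hz1 : z ≠ 1 := by
      intro h
      rw [hz, inv_mul_eq_one] at h
      exact hya h.symm
    have hcN' : ∀ g h : G, (h * g)⁻¹ * (g * h) ∈ N := by
      intro g h
      have := hcN g⁻¹ h⁻¹
      have h2 := hN.conj_mem _ this (1 : G)
      have h3 : (h * g)⁻¹ * (g * h) = g⁻¹ * h⁻¹ * g⁻¹⁻¹ * h⁻¹⁻¹ := by group
      rw [h3]; exact this
    have hzN : z ∈ N := by rw [hz]; exact hcN' y a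
    obtain ⟨e1, e2⟩ := hNz z hzN hz1
    refine heis_mem (x := a) (y := y) (z := z) e2 ?_ ?_ ?_ ?_ hx
    · intro g
      exact Subgroup.mem_center_iff.1 (hNc hzN) g
    · intro g
      rw [← e1]; exact hpN g
    · intro g h
      refine ⟨(h * g)⁻¹ * (g * h), ?_, by group⟩
      rw [← e1]; exact hcN' g h
    · rw [hz]; group

end group

end H13.Fm
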