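import Mathlib

set_option autoImplicit false

namespace H13.Fm

variable {L : Type*} [Lattice L] [IsModularLattice L] [OrderBot L]

/-- `x` is the top of a maximal chain of length `t`. -/
inductive Len : ℕ → L → Prop
  | zero : Len 0 ⊥
  | succ {t : ℕ} {y x : L} : Len t y → y ⋖ x → Len (t + 1) x

theorem len_sub {t : ℕ} {x : L} (h : Len t x) :
    ∀ y ≤ x, ∃ s ≤ t, Len s y ∧ (y < x → s < t) := by
  induction h with
  | zero =>
    intro y hy
    have : y = ⊥ := le_bot_iff.1 hy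
    subst this
    exact ⟨0, le_rfl, Len.zero, fun h => absurd h (lt_irrefl _)⟩
  | @succ t m x hm hmx ih =>
    intro y hy
    rcases hy.eq_or_lt with rfl | hlt
    · exact ⟨t + 1, le_rfl, Len.succ hm hmx, fun h => absurd h (lt_irrefl _)⟩
    · by_cases hym : y ≤ m
      · obtain ⟨s, hs, hl, -⟩ := ih y hym
        exact ⟨s, by omega, hl, fun _ => by omega⟩
      · have h1 : y ⊔ m = x := by
          have h2 : m < y ⊔ m := by
            refine lt_of_le_of_ne le_sup_right fun h => hym ?_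
            rw [h]; exact le_sup_left
          exact (hmx.eq_or_eq h2.le (sup_le hy hmx.le)).resolve_left h2.ne'
        have h3 : y ⊓ m ⋖ y := inf_covBy_of_covBy_sup_right (by rw [h1]; exact hmx)
        have h4 : y ⊓ m < m := by
          refine lt_of_le_of_ne inf_le_right fun h => ?_
          have h5 : m ≤ y := by rw [← h]; exact inf_le_left
          rw [sup_eq_left.2 h5] at h1
          exact hlt.ne h1
        obtain ⟨s, hs, hl, hs'⟩ := ih (y ⊓ m) inf_le_right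
        have := hs' h4
        exact ⟨s + 1, by omega, Len.succ hl h3, fun _ => by omega⟩

theorem exists_diamond {t : ℕ} {h a b c : L} (hh : Len t h) (ha : a ≤ h) (hb : b ≤ h) (hc : c ≤ h)
    (hdist : ¬ a ⊓ (b ⊔ c) ≤ (a ⊓ b) ⊔ (a ⊓ c)) :
    ∃ d a' b' c' j : L, d ⋖ a' ∧ d ⋖ b' ∧ d ⋖ c' ∧ a' ≠ b' ∧ b' ≠ c' ∧ a' ≠ c' ∧
      a' ⊔ b' = j ∧ b' ⊔ c' = j ∧ a' ⊔ c' = j ∧ j ≤ h := by
  classical
  have hex : ∃ s, ∃ x, x ≤ a ⊓ (b ⊔ c) ∧ ¬ x ≤ (a ⊓ b) ⊔ (a ⊓ c) ∧ Len s x := by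
    obtain ⟨s, -, hs, -⟩ := len_sub hh (a ⊓ (b ⊔ c)) (inf_le_left.trans ha)
    exact ⟨s, _, le_rfl, hdist, hs⟩
  obtain ⟨x, hx1, hx2, hx3⟩ := Nat.find_spec hex
  have hmin : ∀ u < x, u ≤ (a ⊓ b) ⊔ (a ⊓ c) := by
    intro u hu
    by_contra hcon
    obtain ⟨s, -, hs, hlt⟩ := len_sub hx3 u hu.le
    exact Nat.find_min hex (hlt hu) ⟨u, hu.le.trans hx1, hcon, hs⟩
  generalize Nat.find hex = s0 at hx3
  cases hx3 with
  | zero => exact absurd bot_le hx2
  | @succ s xs _ hxs hcov =>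
    have hsmall : ∀ u < x, u ≤ xs := by
      intro u hu
      by_contra hcon
      have h1 : xs < u ⊔ xs := by
        refine lt_of_le_of_ne le_sup_right fun h => hcon ?_
        rw [h]; exact le_sup_left
      have h2 : u ⊔ xs = x := (hcov.eq_or_eq h1.le (sup_le hu.le hcov.le)).resolve_left h1.ne'
      apply hx2
      rw [← h2]
      exact sup_le (hmin u hu) (hmin xs hcov.lt)
    have hxa : x ≤ a := hx1.trans inf_le_left
    have hxb : ¬ x ≤ b := fun h => hx2 ((le_inf hxa h).trans le_sup_left)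
    have hxc : ¬ x ≤ c := fun h => hx2 ((le_inf hxa h).trans le_sup_right)
    -- enlarge `b` and `c`
    obtain ⟨b1, hb1⟩ : ∃ b1, b1 = xs ⊔ b := ⟨_, rfl⟩
    obtain ⟨c1, hc1⟩ : ∃ c1, c1 = xs ⊔ c := ⟨_, rfl⟩
    have key : ∀ w : L, ¬ x ≤ w → (xs ⊔ w) ⊓ x = xs := by
      intro w hw
      rw [sup_inf_assoc_of_le w hcov.le]
      apply sup_eq_left.2
      apply hsmall
      refine lt_of_le_of_ne inf_le_right fun h => hw ?_
      rw [← h]; exact inf_le_left
    have xb1 : b1 ⊓ x = xs := by rw [hb1]; exact key b hxb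
    have xc1 : c1 ⊓ x = xs := by rw [hc1]; exact key c hxc
    have hxbc : x ≤ b1 ⊔ c1 := (hx1.trans inf_le_right).trans
      (sup_le_sup (by rw [hb1]; exact le_sup_right) (by rw [hc1]; exact le_sup_right))
    have xsc1 : xs ≤ c1 := by rw [hc1]; exact le_sup_left
    have xsb1 : xs ≤ b1 := by rw [hb1]; exact le_sup_left
    have b1h : b1 ≤ h := by rw [hb1]; exact sup_le (hcov.le.trans (hxa.trans ha)) hb
    have c1h : c1 ≤ h := by rw [hc1]; exact sup_le (hcov.le.trans (hxa.trans ha)) hc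
    obtain ⟨b', hb'⟩ : ∃ b', b' = b1 ⊓ (x ⊔ c1) := ⟨_, rfl⟩
    obtain ⟨c', hc'⟩ : ∃ c', c' = c1 ⊓ (x ⊔ b') := ⟨_, rfl⟩
    have e1 : b' ⊔ c1 = x ⊔ c1 := by
      rw [hb', sup_comm, ← sup_inf_assoc_of_le b1 (le_sup_right : c1 ≤ x ⊔ c1), sup_comm c1 b1]
      exact inf_eq_right.2 (sup_le hxbc le_sup_right)
    have b'le : b' ≤ x ⊔ c1 := by rw [hb']; exact inf_le_right
    have e2 : x ⊔ b' ≤ x ⊔ c1 := sup_le le_sup_left b'le
    have e3 : b' ⊔ c' = x ⊔ b' := by
      rw [hc', ← sup_inf_assoc_of_le c1 (le_sup_right : b' ≤ x ⊔ b'), e1]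
      exact inf_eq_right.2 e2
    have e4 : x ⊔ c' = x ⊔ b' := by
      rw [hc', ← sup_inf_assoc_of_le c1 (le_sup_left : x ≤ x ⊔ b')]
      exact inf_eq_right.2 e2
    have xsb' : xs ≤ b' := by
      rw [hb']; exact le_inf xsb1 (xsc1.trans le_sup_right)
    have xsc' : xs ≤ c' := by
      rw [hc']; exact le_inf xsc1 (xsb'.trans le_sup_right)
    have f1 : x ⊓ b' = xs := by
      apply le_antisymm
      · rw [← xb1, hb', inf_comm b1 x]
        exact inf_le_inf_left x inf_le_left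
      · exact le_inf hcov.le xsb'
    have f2 : x ⊓ c' = xs := by
      apply le_antisymm
      · rw [← xc1, hc', inf_comm c1 x]
        exact inf_le_inf_left x inf_le_left
      · exact le_inf hcov.le xsc'
    have g1 : b' ⋖ x ⊔ b' := covBy_sup_of_inf_covBy_left (by rw [f1]; exact hcov)
    have g2 : c' ⋖ x ⊔ b' := by
      rw [← e4]
      exact covBy_sup_of_inf_covBy_left (by rw [f2]; exact hcov)
    have d1 : b' ⊓ c' ⋖ b' := inf_covBy_of_covBy_sup_right (by rw [e3]; exact g2)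
    have d2 : b' ⊓ c' ⋖ c' := inf_covBy_of_covBy_sup_left (by rw [e3]; exact g1)
    have f3 : x ⊓ (b' ⊓ c') = xs := by
      rw [← inf_assoc, f1]
      exact inf_eq_left.2 xsc'
    have d3 : b' ⊓ c' ⋖ x ⊔ (b' ⊓ c') := covBy_sup_of_inf_covBy_left (by rw [f3]; exact hcov)
    refine ⟨b' ⊓ c', x ⊔ (b' ⊓ c'), b', c', x ⊔ b', d3, d1, d2, ?_, ?_, ?_, ?_, e3, ?_, ?_⟩
    · intro heq
      have h1 : x ≤ b' := by rw [← heq]; exact le_sup_left
      rw [inf_eq_left.2 h1] at f1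
      exact hcov.lt.ne f1.symm
    · intro heq
      rw [← heq, sup_idem] at e3
      exact g1.lt.ne e3
    · intro heq
      have h1 : x ≤ c' := by rw [← heq]; exact le_sup_left
      rw [inf_eq_left.2 h1] at f2
      exact hcov.lt.ne f2.symm
    · rw [sup_assoc, sup_eq_right.2 (inf_le_left : b' ⊓ c' ≤ b')]
    · rw [sup_assoc, sup_eq_right.2 (inf_le_right : b' ⊓ c' ≤ c'), e4]
    · exact sup_le (hxa.trans ha) ((by rw [hb']; exact inf_le_left : b' ≤ b1).trans b1h)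

/-- The bottom of a diamond below an element of length at most `4` has length at most `2`. -/
theorem diamond_bottom {t : ℕ} {h d a' j : L} (hh : Len t h) (ht : t ≤ 4) (h1 : d < a') (h2 : a' < j)
    (h3 : j ≤ h) : ∃ s ≤ 2, Len s d := by
  obtain ⟨s1, hs1, l1, -⟩ := len_sub hh j h3
  obtain ⟨s2, -, l2, hs2⟩ := len_sub l1 a' h2.le
  obtain ⟨s3, -, l3, hs3⟩ := len_sub l2 d h1.le
  have := hs2 h2
  have := hs3 h1
  exact ⟨s3, by omega, l3⟩

end H13.Fm
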