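import Mathlib
import Pool.Agent.H13.Fm.Cases
import Pool.Agent.H13.Fm.Lat

set_option autoImplicit false

namespace H13.Fm

open Pool.Agent.Results.MP_4f47f1_al

/-- the formation of trivial groups -/
def T : Formation where
  mem G _ _ := Subsingleton G
  iso G H _ _ _ _ := by
    rintro ⟨e⟩ h
    exact e.symm.toEquiv.subsingleton
  quot G _ _ N _ h := by
    have := h
    exact Quotient.instSubsingletonQuotient _
  sub G _ _ N₁ N₂ _ _ h1 h2 := by
    rw [QuotientGroup.subsingleton_iff] at h1 h2 ⊢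
    rw [h1, h2, inf_top_eq]

theorem T_ne_bot : T ≠ ⊥ := by
  intro h
  have h1 : T.mem PUnit := (inferInstance : Subsingleton PUnit)
  rw [h] at h1
  exact not_mem_bot h1

theorem T_le {A : Formation} (h : A ≠ ⊥) : T ≤ A := by
  intro G i1 i2 hG
  have : Subsingleton G := hG
  exact mem_trivial h

theorem eq_T_of_cov {A : Formation} (h : ⊥ ⋖ A) : A = T :=
  (((h.eq_or_eq bot_le (T_le h.lt.ne')).resolve_left T_ne_bot)).symm

/-- abelian groups of exponent dividing `p` -/
def E (p : ℕ) : Formation where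
  mem G _ _ := (∀ g h : G, g * h = h * g) ∧ ∀ g : G, g ^ p = 1
  iso G H _ _ _ _ := by
    rintro ⟨e⟩ ⟨h1, h2⟩
    constructor
    · intro g h
      apply e.symm.injective
      rw [map_mul, map_mul, h1]
    · intro g
      apply e.symm.injective
      rw [map_pow, h2, map_one]
  quot G _ _ N _ := by
    rintro ⟨h1, h2⟩
    constructor
    · rintro ⟨g⟩ ⟨h⟩
      exact congrArg QuotientGroup.mk (h1 g h)
    · rintro ⟨g⟩
      exact congrArg QuotientGroup.mk (h2 g)
  sub G _ _ N₁ N₂ _ _ := by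
    rintro ⟨a1, a2⟩ ⟨b1, b2⟩
    constructor
    · rintro ⟨g⟩ ⟨h⟩
      refine QuotientGroup.eq.2 (Subgroup.mem_inf.2 ⟨?_, ?_⟩)
      · exact QuotientGroup.eq.1 (a1 (QuotientGroup.mk g) (QuotientGroup.mk h))
      · exact QuotientGroup.eq.1 (b1 (QuotientGroup.mk g) (QuotientGroup.mk h))
    · rintro ⟨g⟩
      refine (QuotientGroup.eq_one_iff (g ^ p)).2 (Subgroup.mem_inf.2 ⟨?_, ?_⟩)
      · exact (QuotientGroup.eq_one_iff (g ^ p)).1 (a2 (QuotientGroup.mk g))
      · exact (QuotientGroup.eq_one_iff (g ^ p)).1 (b2 (QuotientGroup.mk g))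

theorem special {d x y w : Formation} {p : ℕ} [hpf : Fact p.Prime] (hd0 : d ≠ ⊥) (hdE : d ≤ E p)
    (hCp : ∀ (K : Type) [Group K] [Finite K], Nat.card K = p → d.mem K)
    (hdx : d < x) (hy : y ≠ ⊥) (hw : w ≠ ⊥) (hle : x ≤ y ⊔ w) (hxy : x ⊓ y = d)
    (hxw : x ⊓ w = d)
    (hsol : ∀ (K : Type) [Group K] [Finite K], x.mem K → Group.IsSolvable K) :
    x.mem (Multiplicative (ZMod (p ^ 2))) ∨ x.mem (Heis p) := by
  obtain ⟨G, _, _, hx, hd, hq⟩ := exists_min hdx
  obtain ⟨N, hN, hne, hmin⟩ := exists_N hd0 hd hq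
  have hab := N_comm hN hne hmin (hsol G hx)
  obtain ⟨q, hqp, hNq⟩ := N_pow hN hne hmin hab
  have hE := hdE _ (hq N hne)
  have hpN : ∀ g : G, g ^ p ∈ N := fun g =>
    (QuotientGroup.eq_one_iff (g ^ p)).1 (hE.2 (QuotientGroup.mk g))
  have hcN : ∀ g h : G, g * h * g⁻¹ * h⁻¹ ∈ N := by
    intro g h
    have h1 := QuotientGroup.eq.1 (hE.1 (QuotientGroup.mk g⁻¹) (QuotientGroup.mk h⁻¹))
    have h2 : (g⁻¹ * h⁻¹)⁻¹ * (h⁻¹ * g⁻¹) = h * g * h⁻¹ * g⁻¹ := by group
    rw [h2] at h1
    have h3 := inv_mem h1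
    have h4 : (h * g * h⁻¹ * g⁻¹)⁻¹ = g * h * g⁻¹ * h⁻¹ := by group
    rwa [h4] at h3
  by_cases hpq : q = p
  · subst hpq
    exact p_case hN hne hmin hab hNq hpN hcN hx hd hCp
  · exfalso
    obtain ⟨ρ, h1, h2, h3⟩ := coprime_case hN hne hmin hab hpf.out hqp hpq hNq hpN hcN
    rcases prime_lemma hy hw N hN hmin hab h3 ρ h1 h2 (hle G hx) with h4 | h4
    · apply hd
      rw [← hxy, mem_inf]
      exact ⟨hx, h4⟩
    · apply hd
      rw [← hxw, mem_inf]
      exact ⟨hx, h4⟩

theorem special1 {d x y w : Formation} (hdT : d = T) (hdx : d < x) (hy : y ≠ ⊥) (hw : w ≠ ⊥)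
    (hle : x ≤ y ⊔ w) (hxy : x ⊓ y = d) (hxw : x ⊓ w = d)
    (hsol : ∀ (K : Type) [Group K] [Finite K], x.mem K → Group.IsSolvable K) : False := by
  have hd0 : d ≠ ⊥ := by rw [hdT]; exact T_ne_bot
  obtain ⟨G, _, _, hx, hd, hq⟩ := exists_min hdx
  obtain ⟨N, hN, hne, hmin⟩ := exists_N hd0 hd hq
  have hab := N_comm hN hne hmin (hsol G hx)
  have htop : N = ⊤ := by
    have h1 := hq N hne
    rw [hdT] at h1
    exact QuotientGroup.subsingleton_iff.1 h1
  subst htop
  rcases prime_lemma hy hw ⊤ hN hmin hab (fun _ _ => Subgroup.mem_top _) 1 (fun _ _ => rfl)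
    (fun _ => Subgroup.mem_top _) (hle G hx) with h4 | h4
  · apply hd
    rw [← hxy, mem_inf]
    exact ⟨hx, h4⟩
  · apply hd
    rw [← hxw, mem_inf]
    exact ⟨hx, h4⟩

/-- the prime attached to a formation covering the trivial one -/
theorem exists_prime {d : Formation} (hsol : ∀ (K : Type) [Group K] [Finite K], d.mem K →
    Group.IsSolvable K) (h : T ⋖ d) : ∃ p : ℕ, p.Prime ∧ d ≤ E p ∧
      ∀ (K : Type) [Group K] [Finite K], Nat.card K = p → d.mem K := by
  obtain ⟨G, _, _, hx, hd, hq⟩ := exists_min h.lt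
  obtain ⟨N, hN, hne, hmin⟩ := exists_N T_ne_bot hd hq
  have hab := N_comm hN hne hmin (hsol G hx)
  have htop : N = ⊤ := QuotientGroup.subsingleton_iff.1 (hq N hne)
  subst htop
  have hcomm : ∀ g h : G, g * h = h * g := fun g h => hab g (Subgroup.mem_top _) h (Subgroup.mem_top _)
  have hnt : Nontrivial G := by
    by_contra hcon
    exact hd (not_nontrivial_iff_subsingleton.1 hcon)
  obtain ⟨p, hp, hpow⟩ := N_pow hN hne hmin hab
  have hcard : Nat.card G = p := by
    obtain ⟨g, hg⟩ := exists_ne (1 : G)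
    have h1 : (Subgroup.zpowers g).Normal := by
      constructor
      rintro _ ⟨k, rfl⟩ h
      refine ⟨k, ?_⟩
      simp only
      rw [hcomm h, mul_inv_cancel_right]
    have h2 := hmin _ h1 (by rwa [Ne, Subgroup.zpowers_eq_bot])
    have h3 : Subgroup.zpowers g = ⊤ := top_le_iff.1 h2
    have : Fact p.Prime := ⟨hp⟩
    rw [← Subgroup.card_top, ← h3, Nat.card_zpowers,
      orderOf_eq_prime (hpow g (Subgroup.mem_top _)) hg]
  have hCp : ∀ (K : Type) [Group K] [Finite K], Nat.card K = p → d.mem K := by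
    intro K _ _ hK
    have : Fact p.Prime := ⟨hp⟩
    exact d.iso G K ⟨mulEquivOfPrimeCardEq (p := p) hcard hK⟩ hx
  refine ⟨p, hp, ?_, hCp⟩
  have h5 : T ≤ d ⊓ E p := by
    apply le_inf h.le
    intro K i1 i2 hK
    have : Subsingleton K := hK
    exact ⟨fun _ _ => Subsingleton.elim _ _, fun _ => Subsingleton.elim _ _⟩
  have h6 : d ⊓ E p ≠ T := by
    intro hcon
    apply hd
    rw [← hcon, mem_inf]
    exact ⟨hx, hcomm, fun g => hpow g (Subgroup.mem_top _)⟩
  have h7 := (h.eq_or_eq h5 inf_le_left).resolve_left h6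
  rw [← h7]
  exact inf_le_right

theorem inf_eq_of_cov {L : Type*} [Lattice L] {d a b : L} (ha : d ⋖ a) (hb : d ⋖ b)
    (hne : a ≠ b) : a ⊓ b = d := by
  refine (ha.eq_or_eq (le_inf ha.le hb.le) inf_le_left).resolve_right ?_
  intro h
  have h1 : a ≤ b := by rw [← h]; exact inf_le_right
  rcases hb.eq_or_eq ha.le h1 with h2 | h2
  · exact ha.lt.ne h2.symm
  · exact hne h2

theorem no_diamond {d a b c j : Formation} (ha : d ⋖ a) (hb : d ⋖ b) (hc : d ⋖ c) (hab : a ≠ b)
    (hbc : b ≠ c) (hac : a ≠ c) (jab : a ⊔ b = j) (jbc : b ⊔ c = j) (jac : a ⊔ c = j)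
    (hsol : ∀ (K : Type) [Group K] [Finite K], j.mem K → Group.IsSolvable K)
    {s : ℕ} (hs : s ≤ 2) (hl : Len s d) : False := by
  have aj : a ≤ j := by rw [← jab]; exact le_sup_left
  have bj : b ≤ j := by rw [← jab]; exact le_sup_right
  have cj : c ≤ j := by rw [← jac]; exact le_sup_right
  have iab := inf_eq_of_cov ha hb hab
  have ibc := inf_eq_of_cov hb hc hbc
  have iac := inf_eq_of_cov ha hc hac
  have ha0 : a ≠ ⊥ := fun h => not_lt_bot (h ▸ ha.lt)
  have hb0 : b ≠ ⊥ := fun h => not_lt_bot (h ▸ hb.lt)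
  have hc0 : c ≠ ⊥ := fun h => not_lt_bot (h ▸ hc.lt)
  have sola : ∀ (K : Type) [Group K] [Finite K], a.mem K → Group.IsSolvable K :=
    fun K _ _ h => hsol K (aj K h)
  have solb : ∀ (K : Type) [Group K] [Finite K], b.mem K → Group.IsSolvable K :=
    fun K _ _ h => hsol K (bj K h)
  have solc : ∀ (K : Type) [Group K] [Finite K], c.mem K → Group.IsSolvable K :=
    fun K _ _ h => hsol K (cj K h)
  cases hl with
  | zero => exact hab ((eq_T_of_cov ha).trans (eq_T_of_cov hb).symm)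
  | @succ s1 y _ hl1 hy =>
    cases hl1 with
    | zero =>
      exact special1 (eq_T_of_cov hy) hc.lt ha0 hb0 (by rw [jab]; exact cj)
        (by rw [inf_comm]; exact iac) (by rw [inf_comm]; exact ibc) solc
    | @succ s2 y2 _ hl2 hy2 =>
      cases hl2 with
      | zero =>
        have hyT := eq_T_of_cov hy2
        rw [hyT] at hy
        have hd0 : d ≠ ⊥ := by
          intro h
          rw [h] at hy
          exact not_lt_bot hy.lt
        obtain ⟨p, hp, hdE, hCp⟩ := exists_prime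
          (fun K _ _ h => sola K (ha.le K h)) hy
        have : Fact p.Prime := ⟨hp⟩
        have : NeZero (p ^ 2) := ⟨pow_ne_zero _ hp.ne_zero⟩
        have nC : ¬ d.mem (Multiplicative (ZMod (p ^ 2))) := by
          intro h
          have h1 := (hdE _ h).2 (Multiplicative.ofAdd 1)
          rw [← ofAdd_nsmul, ofAdd_eq_one, nsmul_one, ZMod.natCast_eq_zero_iff] at h1
          have h2 := Nat.le_of_dvd hp.pos h1
          nlinarith [hp.two_le]
        have nH : ¬ d.mem (Heis p) := fun h => Heis.not_comm (hdE _ h).1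
        have fa := special hd0 hdE hCp ha.lt hb0 hc0 (by rw [jbc]; exact aj) iab iac sola
        have fb := special hd0 hdE hCp hb.lt ha0 hc0 (by rw [jac]; exact bj)
          (by rw [inf_comm]; exact iab) ibc solb
        have fc := special hd0 hdE hCp hc.lt ha0 hb0 (by rw [jab]; exact cj)
          (by rw [inf_comm]; exact iac) (by rw [inf_comm]; exact ibc) solc
        rcases fa with fa | fa <;> rcases fb with fb | fb <;> rcases fc with fc | fc
        · exact nC (by rw [← iab, mem_inf]; exact ⟨fa, fb⟩)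
        · exact nC (by rw [← iab, mem_inf]; exact ⟨fa, fb⟩)
        · exact nC (by rw [← iac, mem_inf]; exact ⟨fa, fc⟩)
        · exact nH (by rw [← ibc, mem_inf]; exact ⟨fb, fc⟩)
        · exact nC (by rw [← ibc, mem_inf]; exact ⟨fb, fc⟩)
        · exact nH (by rw [← iac, mem_inf]; exact ⟨fa, fc⟩)
        · exact nH (by rw [← iab, mem_inf]; exact ⟨fa, fb⟩)
        · exact nH (by rw [← iab, mem_inf]; exact ⟨fa, fb⟩)
      | succ _ _ => omega

theorem main (H : Formation) (hs : H.IsSoluble) (t : ℕ) (ht : t ≤ 4) (hl : H.HasLength t)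
    (A B C : Formation) (hA : A ≤ H) (hB : B ≤ H) (hC : C ≤ H) :
    A ⊓ (B ⊔ C) = (A ⊓ B) ⊔ (A ⊓ C) := by
  refine le_antisymm ?_ (sup_le (inf_le_inf_left A le_sup_left) (inf_le_inf_left A le_sup_right))
  by_contra hcon
  have hlen : Len t H := by
    obtain ⟨c, h0, h1, h2⟩ := hl
    have key : ∀ i ≤ t, Len i (c i) := by
      intro i
      induction i with
      | zero => intro _; rw [h0]; exact Len.zero
      | succ i ih => intro hi; exact Len.succ (ih (by omega)) (h2 i (by omega))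
    rw [← h1]
    exact key t le_rfl
  obtain ⟨d, a, b, c, j, da, db, dc, hab, hbc, hac, jab, jbc, jac, hj⟩ :=
    exists_diamond hlen hA hB hC hcon
  have haj : a < j := by
    rw [← jab]
    refine lt_of_le_of_ne le_sup_left fun h => ?_
    have h1 : b ≤ a := by rw [h]; exact le_sup_right
    rcases da.eq_or_eq db.le h1 with h2 | h2
    · exact db.lt.ne h2.symm
    · exact hab h2.symm
  obtain ⟨s, hs2, hls⟩ := diamond_bottom hlen ht da.lt haj hj
  exact no_diamond da db dc hab hbc hac jab jbc jac (fun K _ _ h => hs K (hj K h)) hs2 hls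

end H13.Fm
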